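import Mathlib

set_option autoImplicit false

namespace Pool.Agent.H.MP_3fd052_nt

def ok (x y : ZMod 11) (d : ℕ) : Prop := ∀ i ∈ List.range d, x + ((i : ℕ) + 1) * y ≠ 0

instance (x y : ZMod 11) (d : ℕ) : Decidable (ok x y d) := by
  unfold ok
  infer_instance

lemma choose_d : ∀ x y z : ZMod 11, y ≠ 0 → z ≠ 0 → z ≠ y → ok x y 5 →
    ∃ d ∈ List.range 8, ok x y (d + 3) ∧ ok (x + ((d : ℕ) + 3) * y) z 5 := by
  decide +kernel

open Classical in
noncomputable def gap (x y z : ℤ) : ℕ :=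
  if h : ∃ d, ok x y (d + 3) ∧ ok (x + ((d : ℕ) + 3) * y) z 5 then h.choose + 3 else 3

/-- stage `j`: the block end `k (j + 1)` and the values of `B` (valid below it) -/
noncomputable def st : ℕ → ℕ × (ℕ → ℤ)
  | 0 => (4, fun n => n + 1)
  | j + 1 => ((st j).1 + gap ((st j).2 ((st j).1 - 1)) ((st j).2 (j + 1)) ((st j).2 (j + 2)),
      fun n => if n < (st j).1 then (st j).2 n
        else (st j).2 ((st j).1 - 1) + (n + 1 - (st j).1) * (st j).2 (j + 1))

noncomputable def k : ℕ → ℕ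
  | 0 => 0
  | j + 1 => (st j).1

noncomputable def B (n : ℕ) : ℤ := (st n).2 n

lemma gap_ge (x y z : ℤ) : 3 ≤ gap x y z := by
  unfold gap
  split_ifs <;> omega

lemma k_gap (j : ℕ) : k j + 3 ≤ k (j + 1) := by
  rcases j with _ | j
  · simp [k, st]
  · simpa [k, st] using gap_ge _ _ _

lemma k_ge (j : ℕ) : 3 * j + 4 ≤ k (j + 1) := by
  induction j with
  | zero => simp [k, st]
  | succ j ih => have := k_gap (j + 1); omega

lemma k_mono : StrictMono k := strictMono_nat_of_lt_succ fun j => by have := k_gap j; omega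

lemma st_stable (j l n : ℕ) (h : n < k (j + 1)) (hl : j ≤ l) : (st l).2 n = (st j).2 n := by
  induction l, hl using Nat.le_induction with
  | base => rfl
  | succ l hl ih =>
    have : n < (st l).1 := h.trans_le (k_mono.monotone (Nat.succ_le_succ hl))
    simp [st, this, ih]

lemma st_eq (j n : ℕ) (h : n < k (j + 1)) : (st j).2 n = B n := by
  rcases le_total j n with h1 | h1
  · exact (st_stable j n n h h1).symm
  · exact st_stable n j n (by have := k_ge n; omega) h1

lemma B_zero (n : ℕ) (h : n < 4) : B n = n + 1 := (st_eq 0 n h).symm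

lemma k_succ (j : ℕ) :
    k (j + 2) = k (j + 1) + gap (B (k (j + 1) - 1)) (B (j + 1)) (B (j + 2)) := by
  have := k_ge j
  rw [← st_eq j _ (by omega), ← st_eq j (j + 1) (by omega), ← st_eq j (j + 2) (by omega)]
  rfl

lemma B_blk (j n : ℕ) (h1 : k (j + 1) ≤ n) (h2 : n < k (j + 2)) :
    B n = B (k (j + 1) - 1) + (n + 1 - k (j + 1)) * B (j + 1) := by
  have := k_ge j
  rw [← st_eq (j + 1) n h2, ← st_eq j _ (by omega), ← st_eq j (j + 1) (by omega)]
  exact if_neg (not_lt.mpr h1)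

lemma ex_blk (n : ℕ) : ∃ j, k j ≤ n ∧ n < k (j + 1) := by
  induction n with
  | zero => exact ⟨0, le_rfl, k_mono (Nat.lt_succ_self 0)⟩
  | succ n ih =>
    obtain ⟨j, h1, h2⟩ := ih
    rcases (Nat.succ_le_of_lt h2).eq_or_lt with h | h
    · exact ⟨j + 1, h.ge, by have := k_gap (j + 1); omega⟩
    · exact ⟨j, by omega, h⟩

lemma B_diff (j n : ℕ) (h1 : k j ≤ n + 1) (h2 : n + 1 < k (j + 1)) : B (n + 1) - B n = B j := by
  rcases j with _ | j
  · have h4 : k (0 + 1) = 4 := rfl
    rw [B_zero _ (by omega), B_zero _ (by omega), B_zero 0 (by omega)]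
    push_cast
    ring
  · rw [B_blk j _ h1 h2]
    rcases h1.eq_or_lt with h | h
    · rw [h]
      simp
    · rw [B_blk j n (by omega) (Nat.lt_of_succ_lt h2)]
      push_cast
      ring

lemma inv (j : ℕ) : (∀ n < k (j + 1), (B n : ZMod 11) ≠ 0) ∧
    ok (B (k (j + 1) - 1)) (B (j + 1)) 5 := by
  induction j with
  | zero =>
    have h4 : k 1 = 4 := rfl
    refine ⟨fun n hn => ?_, ?_⟩
    · rw [h4] at hn
      rw [B_zero n hn]
      interval_cases n <;> decide
    · rw [h4, B_zero _ (by norm_num), B_zero _ (by norm_num)]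
      decide
  | succ j ih =>
    obtain ⟨h1, h2⟩ := ih
    have h3 := k_ge j
    have h4 : (B (j + 2) : ZMod 11) ≠ B (j + 1) := by
      obtain ⟨i, hi1, hi2⟩ := ex_blk (j + 2)
      have hi : i < k (j + 1) := by
        rcases i with _ | i
        · omega
        · have := k_ge i
          omega
      have := h1 i hi
      rw [← B_diff i (j + 1) hi1 hi2] at this
      push_cast at this
      exact sub_ne_zero.mp this
    obtain ⟨d, -, hd⟩ := choose_d _ _ _ (h1 _ (by omega)) (h1 _ (by omega)) h4 h2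
    have h5 : ∃ d, k (j + 2) = k (j + 1) + (d + 3) ∧ ok (B (k (j + 1) - 1)) (B (j + 1)) (d + 3) ∧
        ok (B (k (j + 1) - 1) + ((d : ℕ) + 3) * B (j + 1)) (B (j + 2)) 5 := by
      have h : ∃ d, ok (B (k (j + 1) - 1)) (B (j + 1)) (d + 3) ∧
          ok (B (k (j + 1) - 1) + ((d : ℕ) + 3) * B (j + 1)) (B (j + 2)) 5 := ⟨d, hd⟩
      exact ⟨h.choose, by rw [k_succ, gap, dif_pos h], h.choose_spec⟩
    obtain ⟨e, he, h6, h7⟩ := h5
    refine ⟨fun n hn => ?_, ?_⟩
    · rcases lt_or_ge n (k (j + 1)) with h | h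
      · exact h1 n h
      · obtain ⟨i, rfl⟩ := Nat.exists_eq_add_of_le h
        have hn' : k (j + 1) + i < k (j + 2) := hn
        have := h6 i (List.mem_range.mpr (by omega))
        rw [B_blk j _ h hn]
        push_cast
        convert this using 2
        ring
    · rw [B_blk j (k (j + 2) - 1) (by omega) (by omega), he, add_assoc, ← add_assoc (k _),
        Nat.add_succ_sub_one]
      push_cast
      convert h7 using 2
      ring

noncomputable def b (n : ℕ) : ℤ := B (ex_blk n).choose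

lemma b_eq (j n : ℕ) (h1 : k j ≤ n) (h2 : n < k (j + 1)) : b n = B j := by
  obtain ⟨h3, h4⟩ := (ex_blk n).choose_spec
  have h5 := k_mono.lt_iff_lt.mp (h1.trans_lt h4)
  have h6 := k_mono.lt_iff_lt.mp (h3.trans_lt h2)
  rw [b, show (ex_blk n).choose = j by omega]

lemma b_k (j : ℕ) : b (k j) = B j := b_eq j _ le_rfl (k_mono (Nat.lt_succ_self j))

theorem main : k 0 = 0 ∧ (∀ n, k n + 3 ≤ k (n + 1)) ∧
    (∀ n i, k n ≤ i → i < k (n + 1) → b i = b (k n)) ∧
    (∀ n, b (k (n + 1)) - b (k n) = b (n + 1)) ∧ ∀ n, ¬ (11 : ℤ) ∣ b n := by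
  refine ⟨rfl, k_gap, fun n i h1 h2 => by rw [b_eq n i h1 h2, b_k], fun n => ?_, fun n h => ?_⟩
  · obtain ⟨j, h1, h2⟩ := ex_blk (n + 1)
    rw [b_k, b_k, b_eq j _ h1 h2, B_diff j n h1 h2]
  · have := k_ge (ex_blk n).choose
    exact (inv (ex_blk n).choose).1 _ (by omega) ((ZMod.intCast_zmod_eq_zero_iff_dvd _ 11).mpr h)

end Pool.Agent.H.MP_3fd052_nt
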